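import Pool.Agent.Lib.MP_d9b062_al_h11.Lip
import Pool.Agent.Lib.MP_d9b062_al_h64.Basic1

/-!
# Lemma LR: normal form of a strongly contracting element times a regular one
-/

set_option linter.unusedSectionVars false
set_option linter.unusedVariables false

namespace Pool.Agent.Lib.MP_d9b062_al

open Filter
open scoped Topology

namespace H11

/-- a fixed point theorem for maps of closed sets of units -/
lemma exists_fixed_unit {R : Type*} [NormedRing R] [CompleteSpace R] (S : Set Rˣ)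
    (hS : ∀ u : ℕ → Rˣ, (∀ n, u n ∈ S) → ∀ T : R, Tendsto (fun n => (u n : R)) atTop (𝓝 T) →
      ∃ g ∈ S, (g : R) = T)
    (Φ : Rˣ → Rˣ) (hΦ : ∀ u ∈ S, Φ u ∈ S)
    (hc : ∀ u ∈ S, ∀ v ∈ S, ‖(Φ u : R) - Φ v‖ ≤ 1 / 2 * ‖(u : R) - v‖) {u₀ : Rˣ}
    (h₀ : u₀ ∈ S) : ∃ u ∈ S, Φ u = u := by
  have hmem : ∀ n, Φ^[n] u₀ ∈ S := by
    intro n
    induction n with
    | zero => exact h₀
    | succ n ih => rw [Function.iterate_succ_apply']; exact hΦ _ ih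
  have hd : ∀ n, dist ((Φ^[n] u₀ : Rˣ) : R) ((Φ^[n + 1] u₀ : Rˣ) : R) ≤
      ‖(u₀ : R) - Φ u₀‖ * (1 / 2) ^ n := by
    intro n
    induction n with
    | zero => rw [dist_eq_norm]; simp
    | succ n ih =>
      rw [dist_eq_norm] at ih ⊢
      rw [Function.iterate_succ_apply' Φ (n + 1), Function.iterate_succ_apply' Φ n]
      have h1 := hc _ (hmem n) _ (hmem (n + 1))
      rw [← Function.iterate_succ_apply' Φ n] at h1 ⊢
      refine h1.trans ?_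
      rw [pow_succ]
      have := mul_le_mul_of_nonneg_left ih (by norm_num : (0 : ℝ) ≤ 1 / 2)
      refine this.trans (le_of_eq ?_)
      ring
  have hcs : CauchySeq (fun n => ((Φ^[n] u₀ : Rˣ) : R)) :=
    cauchySeq_of_le_geometric (1 / 2) _ (by norm_num) hd
  obtain ⟨T, hT⟩ := cauchySeq_tendsto_of_complete hcs
  obtain ⟨g, hg, hgT⟩ := hS _ hmem T hT
  refine ⟨g, hg, ?_⟩
  rw [← hgT] at hT
  have h1 : Tendsto (fun n => ((Φ^[n + 1] u₀ : Rˣ) : R)) atTop (𝓝 (g : R)) :=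
    hT.comp (tendsto_add_atTop_nat 1)
  have h2 : Tendsto (fun n => ((Φ^[n + 1] u₀ : Rˣ) : R)) atTop (𝓝 (Φ g : R)) := by
    rw [tendsto_iff_norm_sub_tendsto_zero]
    have h3 : Tendsto (fun n => 1 / 2 * ‖((Φ^[n] u₀ : Rˣ) : R) - g‖) atTop (𝓝 0) := by
      have := (tendsto_iff_norm_sub_tendsto_zero.mp hT).const_mul (1 / 2)
      rwa [mul_zero] at this
    refine squeeze_zero (fun n => norm_nonneg _) (fun n => ?_) h3
    rw [Function.iterate_succ_apply']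
    exact hc _ (hmem n) _ hg
  exact Units.ext (tendsto_nhds_unique h2 h1)

lemma unip_of_tendsto {R : Type*} [NormedRing R] {ι : Type*} {P : ι → R} {s : ι → ι → Prop}
    {u : ℕ → R} (hu : ∀ n, Unip P s (u n)) {T : R} (h : Tendsto u atTop (𝓝 T)) :
    Unip P s T := by
  have key : ∀ i j, Tendsto (fun n => P i * u n * P j) atTop (𝓝 (P i * T * P j)) :=
    fun i j => (h.const_mul (P i)).mul_const (P j)
  constructor
  · intro i
    have h1 := key i i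
    simp only [(hu _).1 i] at h1
    exact (tendsto_nhds_unique h1 tendsto_const_nhds)
  · intro i j hij hn
    have h1 := key i j
    simp only [(hu _).2 i j hij hn] at h1
    exact (tendsto_nhds_unique h1 tendsto_const_nhds)

lemma sub_supp {R : Type*} [Ring R] {ι : Type*} [Fintype ι] {P : ι → R} {s : ι → ι → Prop}
    {S T : R} (hS : Unip P s S) (hT : Unip P s T) : Supp P s (S - T) := by
  intro i j hn
  rw [mul_sub, sub_mul]
  by_cases hij : i = j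
  · subst hij; rw [hS.1, hT.1, sub_self]
  · rw [hS.2 i j hij hn, hT.2 i j hij hn, sub_self]

end H11

namespace Cell

variable {N : ℕ} {G : Subgroup (Op N)ˣ} {ι : Type} [Fintype ι] [LinearOrder ι] (c : Cell G ι)

/-- The data of Lemma LR. -/
structure LRSol (h l Y z y d x : (Op N)ˣ) (C : ℝ) : Prop where
  Y_mem : Y ∈ c.Nm
  z_mem : z ∈ c.Np
  y_mem : y ∈ c.Nm
  d_mem : d ∈ c.L
  x_mem : x ∈ c.Np
  eq₁ : h * Y = y * d * x
  eq₂ : l * y = Y * l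
  eq₃ : l * d * x * z = z * (l * d)
  eq₄ : l * h = (Y * z) * (l * d) * (Y * z)⁻¹
  norm_Y : ‖(Y : Op N) - 1‖ ≤ C * c.kap l
  norm_Yinv : ‖((Y⁻¹ : (Op N)ˣ) : Op N) - 1‖ ≤ C * c.kap l
  norm_z : ‖(z : Op N) - Ring.inverse (xU c.P (h : Op N))‖ ≤ C * c.kap l
  norm_zinv : ‖((z⁻¹ : (Op N)ˣ) : Op N) - xU c.P (h : Op N)‖ ≤ C * c.kap l
  norm_y : ‖(y : Op N) - yL c.P (h : Op N)‖ ≤ C * c.kap l
  norm_d : ‖(d : Op N) - dD c.P (h : Op N)‖ ≤ C * c.kap l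
  bound_yinv : ‖((y⁻¹ : (Op N)ˣ) : Op N)‖ ≤ C
  bound_z : ‖(z : Op N)‖ ≤ C
  bound_zinv : ‖((z⁻¹ : (Op N)ˣ) : Op N)‖ ≤ C
  bound_d : ‖(d : Op N)‖ ≤ C
  bound_dinv : ‖((d⁻¹ : (Op N)ˣ) : Op N)‖ ≤ C
  bound_tau : ‖c.tau (d : Op N)‖ ≤ C

lemma h11_closed_Nm (a : Op N) (ρ : ℝ) (u : ℕ → (Op N)ˣ)
    (hu : ∀ n, u n ∈ {g : (Op N)ˣ | g ∈ c.Nm ∧ ‖(g : Op N) - a‖ ≤ ρ}) (T : Op N)
    (hT : Tendsto (fun n => (u n : Op N)) atTop (𝓝 T)) :
    ∃ g ∈ {g : (Op N)ˣ | g ∈ c.Nm ∧ ‖(g : Op N) - a‖ ≤ ρ}, (g : Op N) = T := by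
  have h1 : Unip c.P c.r T := H11.unip_of_tendsto (fun n => (hu n).1.2) hT
  obtain ⟨g, hg⟩ := h1.isUnit c.grading c.r_trans (fun i h => lt_irrefl _ (c.r_lt i i h))
  rw [← hg] at hT h1
  refine ⟨g, ⟨⟨c.mem_of_tendsto (fun n => (hu n).1.1) hT, h1⟩, ?_⟩, hg⟩
  exact le_of_tendsto (hT.sub_const a).norm (Eventually.of_forall fun n => (hu n).2)

lemma h11_closed_Np (a : Op N) (ρ : ℝ) (u : ℕ → (Op N)ˣ)
    (hu : ∀ n, u n ∈ {g : (Op N)ˣ | g ∈ c.Np ∧ ‖(g : Op N) - a‖ ≤ ρ}) (T : Op N)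
    (hT : Tendsto (fun n => (u n : Op N)) atTop (𝓝 T)) :
    ∃ g ∈ {g : (Op N)ˣ | g ∈ c.Np ∧ ‖(g : Op N) - a‖ ≤ ρ}, (g : Op N) = T := by
  have h1 : Unip c.P (fun i j => c.r j i) T := H11.unip_of_tendsto (fun n => (hu n).1.2) hT
  obtain ⟨g, hg⟩ := h1.isUnit c.grading (fun i j k h h' => c.r_trans k j i h' h)
    (fun i h => lt_irrefl _ (c.r_lt i i h))
  rw [← hg] at hT h1
  refine ⟨g, ⟨⟨c.mem_of_tendsto (fun n => (hu n).1.1) hT, h1⟩, ?_⟩, hg⟩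
  exact le_of_tendsto (hT.sub_const a).norm (Eventually.of_forall fun n => (hu n).2)

lemma h11_conj_Nm {l y : (Op N)ˣ} (hl : l ∈ c.L) (hy : y ∈ c.Nm) : l * y * l⁻¹ ∈ c.Nm :=
  ⟨G.mul_mem (G.mul_mem hl.1 hy.1) (G.inv_mem hl.1), hy.2.conj hl.2⟩

lemma h11_conj_Np {l y : (Op N)ˣ} (hl : l ∈ c.L) (hy : y ∈ c.Np) : l⁻¹ * y * l ∈ c.Np := by
  have hl' : l⁻¹ ∈ c.L := c.L.inv_mem hl
  refine ⟨G.mul_mem (G.mul_mem hl'.1 hy.1) hl.1, ?_⟩
  have := hy.2.conj hl'.2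
  rwa [inv_inv] at this

lemma h11_norm_one_le : ‖(1 : Op N)‖ ≤ 1 := ContinuousLinearMap.norm_id_le

/-- norm of a product with a difference -/
lemma h11_norm_mul_sub {T S : Op N} : ‖T * S - T‖ ≤ ‖T‖ * ‖S - 1‖ := by
  have : T * S - T = T * (S - 1) := by rw [mul_sub, mul_one]
  rw [this]; exact norm_mul_le _ _

lemma h11_tau_bound {d : (Op N)ˣ} (hd : d ∈ c.L) {M : ℝ} (h1 : ‖(d : Op N)‖ ≤ M)
    (h2 : ‖((d⁻¹ : (Op N)ˣ) : Op N)‖ ≤ M) (hM : 0 < M) : ‖c.tau (d : Op N)‖ ≤ M := by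
  have key : ∀ e : (Op N)ˣ, e ∈ c.L → ‖(e : Op N)‖ ≤ M → ∀ i, c.tau (e : Op N) i ≤ M := by
    intro e he hM' i
    by_cases hi : c.P i = 0
    · rw [c.tau_of_P_eq hi]; exact hM.le
    · have h3 := c.norm_mul_P he hi
      have h4 : Real.exp (c.tau (e : Op N) i) ≤ M := by
        rw [← h3]
        calc ‖(e : Op N) * c.P i‖ ≤ ‖(e : Op N)‖ * ‖c.P i‖ := norm_mul_le _ _
          _ ≤ M * 1 := mul_le_mul hM' (c.norm_P_le i) (norm_nonneg _) hM.le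
          _ = M := mul_one _
      have h5 := Real.add_one_le_exp (c.tau (e : Op N) i)
      linarith
  rw [pi_norm_le_iff_of_nonneg hM.le]
  intro i
  rw [Real.norm_eq_abs, abs_le]
  have h3 := key d hd h1 i
  have h4 := key d⁻¹ (c.L.inv_mem hd) h2 i
  rw [c.tau_inv hd, Pi.neg_apply] at h4
  exact ⟨by linarith, h3⟩

lemma h11_kap_bound {T : Op N} {M : ℝ} (h : ‖c.tau T‖ ≤ M) :
    c.kap T ≤ ∑ _i : ι, ∑ _j : ι, Real.exp (2 * M) := by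
  classical
  unfold Cell.kap
  refine Finset.sum_le_sum fun i _ => Finset.sum_le_sum fun j _ => ?_
  split_ifs with hij
  · apply Real.exp_le_exp.2
    have h1 := (norm_le_pi_norm (c.tau T) i).trans h
    have h2 := (norm_le_pi_norm (c.tau T) j).trans h
    rw [Real.norm_eq_abs] at h1 h2
    have h3 := abs_le.1 h1
    have h4 := abs_le.1 h2
    linarith [h3.1, h3.2, h4.1, h4.2]
  · exact (Real.exp_pos _).le


/-- the uniform bounds near a regular element -/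
def H11Lip (T₀ : Op N) (M δ₀ : ℝ) : Prop :=
  ∀ T T' : Op N, ‖T - T₀‖ < δ₀ → ‖T' - T₀‖ < δ₀ →
      Reg c.P T ∧ ∀ k, ‖H11.F6 c.P T k - H11.F6 c.P T' k‖ ≤ M * ‖T - T'‖ ∧ ‖H11.F6 c.P T k‖ ≤ M

lemma h11_exists_Y {h l : (Op N)ˣ} (hh : h ∈ G) (hl : l ∈ c.L) {T₀ : Op N} {M H r δ₀ : ℝ}
    (hM : 0 ≤ M) (hlip : c.H11Lip T₀ M δ₀) (hH : ‖(h : Op N)‖ ≤ H)
    (hball : ∀ Y : Op N, ‖Y - 1‖ ≤ r → ‖(h : Op N) * Y - T₀‖ < δ₀) (hr : 0 ≤ r)
    (h1 : c.kap l * (M + 1) ≤ r) (h2 : c.kap l * (M * H) ≤ 1 / 2) :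
    ∃ Y ∈ c.Nm, ∃ y ∈ c.Nm, ∃ d ∈ c.L, ∃ x ∈ c.Np, ‖(Y : Op N) - 1‖ ≤ r ∧
      h * Y = y * d * x ∧ Y = l * y * l⁻¹ ∧ (y : Op N) = yL c.P ((h : Op N) * Y) ∧
      (d : Op N) = dD c.P ((h : Op N) * Y) ∧ (x : Op N) = xU c.P ((h : Op N) * Y) := by
  have hk := c.kap_nonneg (l : Op N)
  have key : ∀ u ∈ {g : (Op N)ˣ | g ∈ c.Nm ∧ ‖(g : Op N) - 1‖ ≤ r},
      ∃ y ∈ c.Nm, (y : Op N) = yL c.P ((h : Op N) * u) ∧ ‖(y : Op N)‖ ≤ M := by
    intro u hu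
    have hb := hball u hu.2
    obtain ⟨hreg, hF⟩ := hlip _ _ hb hb
    obtain ⟨y, hy, d, hd, x, hx, he, hy', hd', hx'⟩ := c.exists_LU (g := h * u)
      (G.mul_mem hh hu.1.1) hreg
    refine ⟨y, hy, hy', ?_⟩
    have := (hF 0).2
    rw [hy']
    exact this
  choose! yy hyy1 hyy2 hyy3 using key
  obtain ⟨Y, hY, hfix⟩ := H11.exists_fixed_unit {g : (Op N)ˣ | g ∈ c.Nm ∧ ‖(g : Op N) - 1‖ ≤ r}
    (c.h11_closed_Nm 1 r) (fun u => l * yy u * l⁻¹) (by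
      intro u hu
      refine ⟨c.h11_conj_Nm hl (hyy1 u hu), ?_⟩
      have h3 := c.conj_Nm hl (hyy1 u hu).2
      have h4 : ‖(yy u : Op N) - 1‖ ≤ M + 1 := by
        refine (norm_sub_le _ _).trans ?_
        have := hyy3 u hu
        linarith [h11_norm_one_le (N := N)]
      calc ‖((l * yy u * l⁻¹ : (Op N)ˣ) : Op N) - 1‖ ≤ c.kap l * ‖(yy u : Op N) - 1‖ := h3
        _ ≤ c.kap l * (M + 1) := mul_le_mul_of_nonneg_left h4 hk
        _ ≤ r := h1) (by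
      intro u hu v hv
      have hbu := hball u hu.2
      have hbv := hball v hv.2
      have h3 := c.norm_conj_le hl (H11.sub_supp (hyy1 u hu).2 (hyy1 v hv).2)
      have h4 : ((l * yy u * l⁻¹ : (Op N)ˣ) : Op N) - ((l * yy v * l⁻¹ : (Op N)ˣ) : Op N) =
          (l : Op N) * ((yy u : Op N) - yy v) * ((l⁻¹ : (Op N)ˣ) : Op N) := by
        rw [mul_sub, sub_mul]; rfl
      rw [h4]
      refine h3.trans ?_
      have h5 : ‖(yy u : Op N) - yy v‖ ≤ M * ‖(h : Op N) * u - h * v‖ := by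
        rw [hyy2 u hu, hyy2 v hv]
        exact ((hlip _ _ hbu hbv).2 0).1
      have h6 : ‖(h : Op N) * u - h * v‖ ≤ H * ‖(u : Op N) - v‖ := by
        rw [← mul_sub]
        exact (norm_mul_le _ _).trans (mul_le_mul_of_nonneg_right hH (norm_nonneg _))
      calc c.kap l * ‖(yy u : Op N) - yy v‖
          ≤ c.kap l * (M * (H * ‖(u : Op N) - v‖)) :=
            mul_le_mul_of_nonneg_left (h5.trans (mul_le_mul_of_nonneg_left h6 hM)) hk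
        _ = c.kap l * (M * H) * ‖(u : Op N) - v‖ := by ring
        _ ≤ 1 / 2 * ‖(u : Op N) - v‖ := mul_le_mul_of_nonneg_right h2 (norm_nonneg _))
    (u₀ := 1) ⟨c.Nm.one_mem, by rw [Units.val_one, sub_self, norm_zero]; exact hr⟩
  have hb := hball Y hY.2
  obtain ⟨hreg, -⟩ := hlip _ _ hb hb
  obtain ⟨y, hy, d, hd, x, hx, he, hy', hd', hx'⟩ := c.exists_LU (g := h * Y)
      (G.mul_mem hh hY.1.1) hreg
  refine ⟨Y, hY.1, y, hy, d, hd, x, hx, hY.2, he, ?_, hy', hd', hx'⟩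
  have hyY : yy Y = y := Units.ext ((hyy2 Y hY).trans hy'.symm)
  rw [← hyY]
  exact hfix.symm

lemma h11_exists_z {l x : (Op N)ˣ} (hl : l ∈ c.L) (hx : x ∈ c.Np) {M : ℝ} (hM : 0 ≤ M)
    (hxi : ‖((x⁻¹ : (Op N)ˣ) : Op N)‖ ≤ M)
    (h1 : c.kap l * (2 * M + 2) ≤ 1) (h2 : M * c.kap l ≤ 1 / 2) :
    ∃ z ∈ c.Np, ‖(z : Op N)‖ ≤ 2 * M + 1 ∧ z = x⁻¹ * (l⁻¹ * z * l) := by
  have hk := c.kap_nonneg (l : Op N)
  obtain ⟨z, hz, hfix⟩ := H11.exists_fixed_unit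
    {g : (Op N)ˣ | g ∈ c.Np ∧ ‖(g : Op N) - 0‖ ≤ 2 * M + 1}
    (c.h11_closed_Np 0 (2 * M + 1)) (fun u => x⁻¹ * (l⁻¹ * u * l)) (by
      intro u hu
      refine ⟨c.Np.mul_mem (c.Np.inv_mem hx) (c.h11_conj_Np hl hu.1), ?_⟩
      have h3 := c.conj_Np hl hu.1.2
      have hu2 := hu.2
      rw [sub_zero] at hu2 ⊢
      have h4 : ‖(u : Op N) - 1‖ ≤ 2 * M + 2 := by
        refine (norm_sub_le _ _).trans ?_
        linarith [h11_norm_one_le (N := N)]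
      have h5 : ‖((l⁻¹ : (Op N)ˣ) : Op N) * u * (l : Op N) - 1‖ ≤ 1 :=
        h3.trans ((mul_le_mul_of_nonneg_left h4 hk).trans h1)
      have h6 : ‖((l⁻¹ : (Op N)ˣ) : Op N) * u * (l : Op N)‖ ≤ 2 := by
        have h7 := norm_add_le (((l⁻¹ : (Op N)ˣ) : Op N) * u * (l : Op N) - 1) 1
        rw [sub_add_cancel] at h7
        linarith [h11_norm_one_le (N := N)]
      calc ‖((x⁻¹ * (l⁻¹ * u * l) : (Op N)ˣ) : Op N)‖
          = ‖((x⁻¹ : (Op N)ˣ) : Op N) * (((l⁻¹ : (Op N)ˣ) : Op N) * u * (l : Op N))‖ := rfl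
        _ ≤ ‖((x⁻¹ : (Op N)ˣ) : Op N)‖ * ‖((l⁻¹ : (Op N)ˣ) : Op N) * u * (l : Op N)‖ :=
            norm_mul_le _ _
        _ ≤ M * 2 := mul_le_mul hxi h6 (norm_nonneg _) hM
        _ ≤ 2 * M + 1 := by linarith) (by
      intro u hu v hv
      have h3 := c.norm_conj_le' hl (H11.sub_supp hu.1.2 hv.1.2)
      have h4 : ((x⁻¹ * (l⁻¹ * u * l) : (Op N)ˣ) : Op N) -
            ((x⁻¹ * (l⁻¹ * v * l) : (Op N)ˣ) : Op N) = ((x⁻¹ : (Op N)ˣ) : Op N) *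
          (((l⁻¹ : (Op N)ˣ) : Op N) * ((u : Op N) - v) * (l : Op N)) := by
        rw [mul_sub, sub_mul, mul_sub]; rfl
      rw [h4]
      calc ‖((x⁻¹ : (Op N)ˣ) : Op N) * (((l⁻¹ : (Op N)ˣ) : Op N) * ((u : Op N) - v) * (l : Op N))‖
          ≤ ‖((x⁻¹ : (Op N)ˣ) : Op N)‖ *
            ‖((l⁻¹ : (Op N)ˣ) : Op N) * ((u : Op N) - v) * (l : Op N)‖ := norm_mul_le _ _
        _ ≤ M * (c.kap l * ‖(u : Op N) - v‖) := mul_le_mul hxi h3 (norm_nonneg _) hM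
        _ = M * c.kap l * ‖(u : Op N) - v‖ := by ring
        _ ≤ 1 / 2 * ‖(u : Op N) - v‖ := mul_le_mul_of_nonneg_right h2 (norm_nonneg _))
    (u₀ := 1) ⟨c.Np.one_mem, by
      rw [Units.val_one, sub_zero]; linarith [h11_norm_one_le (N := N)]⟩
  have h3 := hz.2
  rw [sub_zero] at h3
  exact ⟨z, hz.1, h3, hfix.symm⟩



lemma h11_LR_aux {h l : (Op N)ˣ} (hh : h ∈ G) (hl : l ∈ c.L) {T₀ : Op N}
    {M H B C r δ₀ κ : ℝ} (hκ : c.kap (l : Op N) = κ)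
    (hM1 : 1 ≤ M) (hlip : c.H11Lip T₀ M δ₀) (hH : 1 ≤ H) (hHh : ‖(h : Op N)‖ ≤ H)
    (hball : ∀ Y : Op N, ‖Y - 1‖ ≤ r → ‖(h : Op N) * Y - T₀‖ < δ₀)
    (hh0 : ‖(h : Op N) - T₀‖ < δ₀) (hr : 0 ≤ r)
    (hB0 : 0 ≤ B) (hB : ∀ T : Op N, ‖c.tau T‖ ≤ M → c.kap T ≤ B)
    (k1 : κ * (M + 1) ≤ r) (k2 : κ * (M * H) ≤ 1 / 2)
    (k3 : κ * (B + 1) * (2 * M + 2) ≤ 1) (k4 : M * (κ * (B + 1)) ≤ 1 / 2)
    (hC : C = (M + 1) + M * H * (M + 1) + M * B * (2 * M + 2) + M * B * (4 * M + 1) + 4 * M +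
      (2 * M + 1)) :
    ∃ Y z y d x, c.LRSol h l Y z y d x C := by
  have hM0 : 0 ≤ M := by linarith
  have hMpos : 0 < M := by linarith
  have hH0 : 0 ≤ H := by linarith
  have e1 : 0 ≤ M * H * (M + 1) := mul_nonneg (mul_nonneg hM0 hH0) (by linarith)
  have e2 : 0 ≤ M * B * (2 * M + 2) := mul_nonneg (mul_nonneg hM0 hB0) (by linarith)
  have e3 : 0 ≤ M * B * (4 * M + 1) := mul_nonneg (mul_nonneg hM0 hB0) (by linarith)
  have one_le := h11_norm_one_le (N := N)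
  have hk0 : 0 ≤ κ := by rw [← hκ]; exact c.kap_nonneg (l : Op N)
  have hkB0 : 0 ≤ κ * B := mul_nonneg hk0 hB0
  obtain ⟨Y, hY, y, hy, d, hd, x, hx, hYr, he, hYy, hyL, hdD, hxU⟩ :=
    c.h11_exists_Y hh hl hM0 hlip hHh hball hr (by rw [hκ]; exact k1) (by rw [hκ]; exact k2)
  have hbY := hball Y hYr
  obtain ⟨-, hF⟩ := hlip _ _ hbY hh0
  have hyi : ((y⁻¹ : (Op N)ˣ) : Op N) = Ring.inverse (yL c.P ((h : Op N) * Y)) := by
    rw [← hyL, Ring.inverse_unit]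
  have hxi : ((x⁻¹ : (Op N)ˣ) : Op N) = Ring.inverse (xU c.P ((h : Op N) * Y)) := by
    rw [← hxU, Ring.inverse_unit]
  have hdi : ((d⁻¹ : (Op N)ˣ) : Op N) = Ring.inverse (dD c.P ((h : Op N) * Y)) := by
    rw [← hdD, Ring.inverse_unit]
  have by1 : ‖(y : Op N)‖ ≤ M := by rw [hyL]; exact (hF 0).2
  have by2 : ‖((y⁻¹ : (Op N)ˣ) : Op N)‖ ≤ M := by rw [hyi]; exact (hF 1).2
  have bx1 : ‖(x : Op N)‖ ≤ M := by rw [hxU]; exact (hF 2).2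
  have bx2 : ‖((x⁻¹ : (Op N)ˣ) : Op N)‖ ≤ M := by rw [hxi]; exact (hF 3).2
  have bd1 : ‖(d : Op N)‖ ≤ M := by rw [hdD]; exact (hF 4).2
  have bd2 : ‖((d⁻¹ : (Op N)ˣ) : Op N)‖ ≤ M := by rw [hdi]; exact (hF 5).2
  have btau : ‖c.tau (d : Op N)‖ ≤ M := c.h11_tau_bound hd bd1 bd2 hMpos
  have hkd : c.kap (d : Op N) ≤ B := hB _ btau
  have hld : l * d ∈ c.L := c.L.mul_mem hl hd
  obtain ⟨κ', hκ'⟩ : ∃ κ', c.kap ((l * d : (Op N)ˣ) : Op N) = κ' := ⟨_, rfl⟩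
  have hkld : κ' ≤ κ * B := by
    have h1 := c.kap_mul hl hd
    rw [hκ] at h1
    rw [← hκ']
    exact h1.trans (mul_le_mul_of_nonneg_left hkd hk0)
  have hkld0 : 0 ≤ κ' := by rw [← hκ']; exact c.kap_nonneg ((l * d : (Op N)ˣ) : Op N)
  have hkB : κ * B ≤ κ * (B + 1) := mul_le_mul_of_nonneg_left (by linarith) hk0
  have k5 : κ' * (2 * M + 2) ≤ 1 :=
    (mul_le_mul_of_nonneg_right (hkld.trans hkB) (by linarith)).trans k3
  have k6 : M * κ' ≤ 1 / 2 :=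
    (mul_le_mul_of_nonneg_left (hkld.trans hkB) hM0).trans k4
  obtain ⟨z, hz, hzR, hzfix⟩ := c.h11_exists_z hld hx hM0 bx2 (by rw [hκ']; exact k5)
    (by rw [hκ']; exact k6)
  -- estimates
  have n1 : ‖(y : Op N) - 1‖ ≤ M + 1 := (norm_sub_le _ _).trans (by linarith)
  have n2 : ‖((y⁻¹ : (Op N)ˣ) : Op N) - 1‖ ≤ M + 1 := (norm_sub_le _ _).trans (by linarith)
  have nY : ‖(Y : Op N) - 1‖ ≤ κ * (M + 1) := by
    rw [hYy, ← hκ]
    exact (c.conj_Nm hl hy.2).trans (mul_le_mul_of_nonneg_left n1 (c.kap_nonneg _))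
  have nYi : ‖((Y⁻¹ : (Op N)ˣ) : Op N) - 1‖ ≤ κ * (M + 1) := by
    have h1 : Y⁻¹ = l * y⁻¹ * l⁻¹ := by rw [hYy]; group
    rw [h1, ← hκ]
    exact (c.conj_Nm hl (c.Nm.inv_mem hy).2).trans (mul_le_mul_of_nonneg_left n2 (c.kap_nonneg _))
  have nhY : ‖(h : Op N) * Y - h‖ ≤ H * (κ * (M + 1)) :=
    h11_norm_mul_sub.trans (mul_le_mul hHh nY (norm_nonneg _) hH0)
  have nF : ∀ k, ‖H11.F6 c.P ((h : Op N) * Y) k - H11.F6 c.P (h : Op N) k‖ ≤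
      M * H * (M + 1) * κ := by
    intro k
    refine ((hF k).1.trans (mul_le_mul_of_nonneg_left nhY hM0)).trans (le_of_eq (by ring))
  -- the element w
  obtain ⟨w, hw⟩ : ∃ w : (Op N)ˣ, w = (l * d)⁻¹ * z * (l * d) := ⟨_, rfl⟩
  rw [← hw] at hzfix
  have hwi : w⁻¹ = (l * d)⁻¹ * z⁻¹ * (l * d) := by rw [hw]; group
  have hxz : x * z = (l * d)⁻¹ * z * (l * d) := by
    rw [← hw]; nth_rewrite 1 [hzfix]; group
  have hzi : z⁻¹ = w⁻¹ * x := by rw [hzfix]; group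
  have nz1 : ‖(z : Op N) - 1‖ ≤ 2 * M + 2 := (norm_sub_le _ _).trans (by linarith)
  have nw : ‖(w : Op N) - 1‖ ≤ κ * B * (2 * M + 2) := by
    rw [hw]
    have h1 := c.conj_Np hld hz.2
    rw [hκ'] at h1
    exact h1.trans (mul_le_mul hkld nz1 (norm_nonneg _) hkB0)
  -- bound on z⁻¹
  obtain ⟨b, hb⟩ : ∃ b : ℝ, ‖((z⁻¹ : (Op N)ˣ) : Op N)‖ = b := ⟨_, rfl⟩
  have hb0 : 0 ≤ b := by rw [← hb]; exact norm_nonneg _
  have nzi1 : ‖((z⁻¹ : (Op N)ˣ) : Op N) - 1‖ ≤ b + 1 :=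
    (norm_sub_le _ _).trans (by linarith)
  have nwi : ‖((w⁻¹ : (Op N)ˣ) : Op N) - 1‖ ≤ κ' * (b + 1) := by
    rw [hwi]
    have h1 := c.conj_Np hld (c.Np.inv_mem hz).2
    rw [hκ'] at h1
    exact h1.trans (mul_le_mul_of_nonneg_left nzi1 hkld0)
  have nwi2 : ‖((w⁻¹ : (Op N)ˣ) : Op N)‖ ≤ 1 + κ' * (b + 1) := by
    have h7 := norm_add_le (((w⁻¹ : (Op N)ˣ) : Op N) - 1) 1
    rw [sub_add_cancel] at h7
    linarith
  have hb4 : b ≤ 4 * M := by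
    have h1 : b ≤ (1 + κ' * (b + 1)) * M := by
      have h2 : ((z⁻¹ : (Op N)ˣ) : Op N) = ((w⁻¹ : (Op N)ˣ) : Op N) * x := by rw [hzi]; rfl
      have h3 : ‖((w⁻¹ : (Op N)ˣ) : Op N) * x‖ ≤ (1 + κ' * (b + 1)) * M :=
        (norm_mul_le _ _).trans (mul_le_mul nwi2 bx1 (norm_nonneg _)
          (add_nonneg zero_le_one (mul_nonneg hkld0 (by linarith))))
      rw [← h2, hb] at h3
      exact h3
    have h3 : (1 + κ' * (b + 1)) * M = M + M * κ' * b + M * κ' := by ring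
    have h4 : M * κ' * b ≤ 1 / 2 * b := mul_le_mul_of_nonneg_right k6 hb0
    rw [h3] at h1
    linarith
  have nwi3 : ‖((w⁻¹ : (Op N)ˣ) : Op N) - 1‖ ≤ κ * B * (4 * M + 1) :=
    nwi.trans (mul_le_mul hkld (by linarith) (by linarith) hkB0)
  have leC : ∀ a : ℝ, a ≤ C → a * κ ≤ C * κ := fun a ha => mul_le_mul_of_nonneg_right ha hk0
  have hly : l * y = Y * l := by rw [hYy]; group
  have hz1 : ‖(z : Op N) - ((x⁻¹ : (Op N)ˣ) : Op N)‖ ≤ M * B * (2 * M + 2) * κ := by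
    have h2 : (z : Op N) = ((x⁻¹ : (Op N)ˣ) : Op N) * w := congrArg Units.val hzfix
    rw [h2]
    refine (h11_norm_mul_sub.trans (mul_le_mul bx2 nw (norm_nonneg _) hM0)).trans
      (le_of_eq (by ring))
  have hz2 : ‖((x⁻¹ : (Op N)ˣ) : Op N) - Ring.inverse (xU c.P (h : Op N))‖ ≤
      M * H * (M + 1) * κ := by
    rw [hxi]; exact nF 3
  have hz3 : ‖((z⁻¹ : (Op N)ˣ) : Op N) - (x : Op N)‖ ≤ M * B * (4 * M + 1) * κ := by
    have h2 : ((z⁻¹ : (Op N)ˣ) : Op N) - (x : Op N) =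
        (((w⁻¹ : (Op N)ˣ) : Op N) - 1) * x := by
      rw [hzi, sub_mul, one_mul]; rfl
    rw [h2]
    refine ((norm_mul_le _ _).trans (mul_le_mul nwi3 bx1 (norm_nonneg _)
      (mul_nonneg hkB0 (by linarith)))).trans (le_of_eq (by ring))
  have hz4 : ‖(x : Op N) - xU c.P (h : Op N)‖ ≤ M * H * (M + 1) * κ := by
    rw [hxU]; exact nF 2
  refine ⟨Y, z, y, d, x, ?_⟩
  constructor
  · exact hY
  · exact hz
  · exact hy
  · exact hd
  · exact hx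
  · exact he
  · exact hly
  · calc l * d * x * z = l * d * (x * z) := by group
      _ = z * (l * d) := by rw [hxz]; group
  · rw [eq_mul_inv_iff_mul_eq]
    calc l * h * (Y * z) = l * (h * Y) * z := by group
      _ = (l * y) * d * (x * z) := by rw [he]; group
      _ = Y * l * d * ((l * d)⁻¹ * z * (l * d)) := by rw [hly, hxz]
      _ = Y * z * (l * d) := by group
  · rw [hκ]; exact nY.trans (by rw [mul_comm]; exact leC _ (by linarith))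
  · rw [hκ]; exact nYi.trans (by rw [mul_comm]; exact leC _ (by linarith))
  · rw [hκ]
    have h3 := norm_add_le ((z : Op N) - ((x⁻¹ : (Op N)ˣ) : Op N))
      (((x⁻¹ : (Op N)ˣ) : Op N) - Ring.inverse (xU c.P (h : Op N)))
    rw [sub_add_sub_cancel] at h3
    refine h3.trans ((add_le_add hz1 hz2).trans ?_)
    rw [← add_mul]
    exact leC _ (by linarith)
  · rw [hκ]
    have h3 := norm_add_le (((z⁻¹ : (Op N)ˣ) : Op N) - (x : Op N))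
      ((x : Op N) - xU c.P (h : Op N))
    rw [sub_add_sub_cancel] at h3
    refine h3.trans ((add_le_add hz3 hz4).trans ?_)
    rw [← add_mul]
    exact leC _ (by linarith)
  · rw [hκ, hyL]; exact (nF 0).trans (leC _ (by linarith))
  · rw [hκ, hdD]; exact (nF 4).trans (leC _ (by linarith))
  · linarith
  · linarith
  · linarith
  · linarith
  · linarith
  · linarith

theorem LR {h₀ : (Op N)ˣ} (hh₀ : h₀ ∈ G) (hreg : Reg c.P (h₀ : Op N)) :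
    ∃ C > 0, ∃ δ > 0, ∀ h ∈ G, ‖(h : Op N) - h₀‖ < δ → ∀ l ∈ c.L, c.kap l < δ →
      Reg c.P (h : Op N) ∧ ∃ Y z y d x, c.LRSol h l Y z y d x C := by
  obtain ⟨K, hK, δ₀, hδ₀, hlip0⟩ := H11.exists_lip6 c.grading c.star_P hreg ⟨h₀, rfl⟩
  obtain ⟨M, hMdef⟩ : ∃ M : ℝ, M = K + 1 := ⟨_, rfl⟩
  have hM1 : 1 ≤ M := by linarith
  have hMpos : 0 < M := by linarith
  have hlip : c.H11Lip (h₀ : Op N) M δ₀ := by
    intro T T' hT hT'
    obtain ⟨h1, h2⟩ := hlip0 T T' hT hT'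
    refine ⟨h1, fun k => ⟨(h2 k).1.trans ?_, (h2 k).2.trans (by linarith)⟩⟩
    exact mul_le_mul_of_nonneg_right (by linarith) (norm_nonneg _)
  obtain ⟨H, hHdef⟩ : ∃ H : ℝ, H = ‖(h₀ : Op N)‖ + 1 := ⟨_, rfl⟩
  have hH1 : 1 ≤ H := by have := norm_nonneg (h₀ : Op N); linarith
  have hHpos : 0 < H := by linarith
  obtain ⟨B, hBdef⟩ : ∃ B : ℝ, B = ∑ _i : ι, ∑ _j : ι, Real.exp (2 * M) := ⟨_, rfl⟩
  have hB0 : 0 ≤ B := by
    rw [hBdef]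
    exact Finset.sum_nonneg fun _ _ => Finset.sum_nonneg fun _ _ => (Real.exp_pos _).le
  obtain ⟨r, hrdef⟩ : ∃ r : ℝ, r = δ₀ / (2 * H) := ⟨_, rfl⟩
  have hr : 0 < r := by rw [hrdef]; positivity
  have hHr : H * r = δ₀ / 2 := by rw [hrdef]; field_simp
  obtain ⟨δ, hδdef⟩ : ∃ δ : ℝ, δ = min (min 1 (δ₀ / 2)) (min (r / (M + 1))
    (min (1 / (2 * (M * H))) (min (1 / ((B + 1) * (2 * M + 2))) (1 / (2 * (M * (B + 1))))))) :=
    ⟨_, rfl⟩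
  have hδ : 0 < δ := by
    rw [hδdef]
    refine lt_min (lt_min one_pos (by positivity)) (lt_min (by positivity) (lt_min (by positivity)
      (lt_min (by positivity) (by positivity))))
  have d1 : δ ≤ 1 := by rw [hδdef]; exact (min_le_left _ _).trans (min_le_left _ _)
  have d2 : δ ≤ δ₀ / 2 := by rw [hδdef]; exact (min_le_left _ _).trans (min_le_right _ _)
  have d3 : δ ≤ r / (M + 1) := by rw [hδdef]; exact (min_le_right _ _).trans (min_le_left _ _)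
  have d4 : δ ≤ 1 / (2 * (M * H)) := by
    rw [hδdef]; exact (min_le_right _ _).trans ((min_le_right _ _).trans (min_le_left _ _))
  have d5 : δ ≤ 1 / ((B + 1) * (2 * M + 2)) := by
    rw [hδdef]
    exact (min_le_right _ _).trans ((min_le_right _ _).trans
      ((min_le_right _ _).trans (min_le_left _ _)))
  have d6 : δ ≤ 1 / (2 * (M * (B + 1))) := by
    rw [hδdef]
    exact (min_le_right _ _).trans ((min_le_right _ _).trans
      ((min_le_right _ _).trans (min_le_right _ _)))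
  refine ⟨(M + 1) + M * H * (M + 1) + M * B * (2 * M + 2) + M * B * (4 * M + 1) + 4 * M +
      (2 * M + 1), by positivity, δ, hδ, fun h hh hhδ l hl hkδ => ?_⟩
  have hk0 := c.kap_nonneg (l : Op N)
  have hHh : ‖(h : Op N)‖ ≤ H := by
    have := norm_add_le ((h : Op N) - h₀) h₀
    rw [sub_add_cancel] at this
    linarith
  have hh0 : ‖(h : Op N) - h₀‖ < δ₀ := by linarith
  refine ⟨(hlip _ _ hh0 hh0).1, ?_⟩
  refine c.h11_LR_aux hh hl rfl hM1 hlip hH1 hHh (r := r) ?_ hh0 hr.le hB0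
    (fun T hT => by rw [hBdef]; exact c.h11_kap_bound hT) ?_ ?_ ?_ ?_ rfl
  · intro Y hY
    have h1 : (h : Op N) * Y - h₀ = (h : Op N) * (Y - 1) + ((h : Op N) - h₀) := by
      rw [mul_sub, mul_one]; abel
    have h2 : ‖(h : Op N) * (Y - 1)‖ ≤ H * r :=
      (norm_mul_le _ _).trans (mul_le_mul hHh hY (norm_nonneg _) hHpos.le)
    have h3 := norm_add_le ((h : Op N) * (Y - 1)) ((h : Op N) - h₀)
    rw [h1]
    linarith
  · exact (le_div_iff₀ (by linarith : (0:ℝ) < M + 1)).mp (hkδ.le.trans d3)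
  · have := (le_div_iff₀ (by positivity : (0:ℝ) < 2 * (M * H))).mp (hkδ.le.trans d4)
    linarith
  · have := (le_div_iff₀ (by positivity : (0:ℝ) < (B + 1) * (2 * M + 2))).mp (hkδ.le.trans d5)
    linarith
  · have := (le_div_iff₀ (by positivity : (0:ℝ) < 2 * (M * (B + 1)))).mp (hkδ.le.trans d6)
    linarith

end Cell

end Pool.Agent.Lib.MP_d9b062_al
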