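import Pool.Agent.Lib.MP_d9b062_al.CellDefs

/-!
# Local Lipschitz bounds for the block LU decomposition
-/

set_option linter.unusedSectionVars false

namespace Pool.Agent.Lib.MP_d9b062_al

open Filter
open scoped Topology

namespace H11

section Abstract

variable {R : Type*} [NormedRing R] [NormedAlgebra ℝ R] [CompleteSpace R] [StarRing R]
  [ContinuousStar R] [StarModule ℝ R]
variable {ι : Type} [Fintype ι] [LinearOrder ι] {P : ι → R}

lemma contDiffAt_inv {f : R → R} {T₀ : R} (hf : ContDiffAt ℝ 1 f T₀) (hu : IsUnit (f T₀)) :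
    ContDiffAt ℝ 1 (fun T => Ring.inverse (f T)) T₀ := by
  obtain ⟨u, hu⟩ := hu
  have h1 : ContDiffAt ℝ 1 (Ring.inverse : R → R) (f T₀) := by
    rw [← hu]; exact contDiffAt_ringInverse ℝ u
  exact h1.comp T₀ hf

lemma contDiff_Mi (i : ι) : ContDiff ℝ 1 (fun T : R => Mi P i T) := by
  unfold Mi
  exact ((contDiff_const.mul contDiff_id).mul contDiff_const).add contDiff_const

lemma contDiffAt_yL {T₀ : R} (h : Reg P T₀) : ContDiffAt ℝ 1 (fun T : R => yL P T) T₀ := by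
  unfold yL
  apply ContDiffAt.sum
  intro i _
  exact ((contDiffAt_id.mul contDiffAt_const).mul
    (contDiffAt_inv (contDiff_Mi i).contDiffAt (h i))).mul contDiffAt_const

lemma contDiff_star : ContDiff ℝ 1 (fun T : R => star T) :=
  (starL' ℝ : R ≃L[ℝ] R).contDiff

lemma contDiffAt_xU (hs : ∀ i, star (P i) = P i) {T₀ : R} (h : Reg P T₀) :
    ContDiffAt ℝ 1 (fun T : R => xU P T) T₀ := by
  unfold xU
  have h1 : ContDiffAt ℝ 1 (fun T : R => yL P T) (star T₀) := contDiffAt_yL (h.star hs)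
  exact contDiff_star.contDiffAt.comp T₀ (h1.comp T₀ contDiff_star.contDiffAt)

lemma contDiffAt_dD (hP : IsGrading P) (hs : ∀ i, star (P i) = P i) {T₀ : R} (h : Reg P T₀) :
    ContDiffAt ℝ 1 (fun T : R => dD P T) T₀ := by
  unfold dD
  exact ((contDiffAt_inv (contDiffAt_yL h) (yL_isUnit hP h)).mul contDiffAt_id).mul
    (contDiffAt_inv (contDiffAt_xU hs h) (xU_isUnit hP hs h))

lemma dD_isUnit (hP : IsGrading P) (hs : ∀ i, star (P i) = P i) {T₀ : R} (h : Reg P T₀)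
    (hu : IsUnit T₀) : IsUnit (dD P T₀) := by
  unfold dD
  exact ((yL_isUnit hP h).ringInverse.mul hu).mul (xU_isUnit hP hs h).ringInverse

lemma reg_eventually {T₀ : R} (h : Reg P T₀) : ∀ᶠ T in 𝓝 T₀, Reg P T := by
  unfold Reg
  rw [Filter.eventually_all]
  intro i
  have h1 : ContinuousAt (fun T : R => Mi P i T) T₀ := (contDiff_Mi i).continuous.continuousAt
  exact h1.eventually (Units.isOpen.mem_nhds (h i))

/-- the six functions -/
noncomputable def F6 (P : ι → R) (T : R) : Fin 6 → R :=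
  ![yL P T, Ring.inverse (yL P T), xU P T, Ring.inverse (xU P T), dD P T,
    Ring.inverse (dD P T)]

lemma contDiffAt_F6 (hP : IsGrading P) (hs : ∀ i, star (P i) = P i) {T₀ : R} (h : Reg P T₀)
    (hu : IsUnit T₀) : ContDiffAt ℝ 1 (F6 P) T₀ := by
  rw [contDiffAt_pi]
  intro k
  fin_cases k
  · exact contDiffAt_yL h
  · exact contDiffAt_inv (contDiffAt_yL h) (yL_isUnit hP h)
  · exact contDiffAt_xU hs h
  · exact contDiffAt_inv (contDiffAt_xU hs h) (xU_isUnit hP hs h)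
  · exact contDiffAt_dD hP hs h
  · exact contDiffAt_inv (contDiffAt_dD hP hs h) (dD_isUnit hP hs h hu)

/-- locally Lipschitz and bounded -/
lemma exists_lip_of_contDiffAt {E F : Type*} [NormedAddCommGroup E] [NormedSpace ℝ E]
    [NormedAddCommGroup F] [NormedSpace ℝ F] {f : E → F} {T₀ : E} (hf : ContDiffAt ℝ 1 f T₀) :
    ∃ K > 0, ∃ δ > 0, ∀ T T' : E, ‖T - T₀‖ < δ → ‖T' - T₀‖ < δ →
      ‖f T - f T'‖ ≤ K * ‖T - T'‖ ∧ ‖f T‖ ≤ K := by
  obtain ⟨K, t, ht, hK⟩ := hf.exists_lipschitzOnWith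
  obtain ⟨δ, hδ, hb⟩ := Metric.mem_nhds_iff.mp ht
  refine ⟨K + ‖f T₀‖ + 1, by positivity, min δ 1, lt_min hδ one_pos, fun T T' hT hT' => ?_⟩
  have h1 : T ∈ t := hb (by rw [Metric.mem_ball, dist_eq_norm]; exact hT.trans_le (min_le_left _ _))
  have h2 : T' ∈ t :=
    hb (by rw [Metric.mem_ball, dist_eq_norm]; exact hT'.trans_le (min_le_left _ _))
  have h3 : T₀ ∈ t := mem_of_mem_nhds ht
  have h4 := hK.dist_le_mul T h1 T' h2
  have h5 := hK.dist_le_mul T h1 T₀ h3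
  rw [dist_eq_norm, dist_eq_norm] at h4 h5
  have hK0 : (0 : ℝ) ≤ K := K.2
  constructor
  · refine h4.trans ?_
    apply mul_le_mul_of_nonneg_right _ (norm_nonneg _)
    have := norm_nonneg (f T₀)
    linarith
  · have h6 : ‖f T‖ ≤ ‖f T - f T₀‖ + ‖f T₀‖ := by
      have := norm_add_le (f T - f T₀) (f T₀)
      rwa [sub_add_cancel] at this
    have h7 : ‖T - T₀‖ ≤ 1 := (hT.trans_le (min_le_right _ _)).le
    have h8 : (K : ℝ) * ‖T - T₀‖ ≤ K * 1 := mul_le_mul_of_nonneg_left h7 hK0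
    linarith

lemma exists_lip6 (hP : IsGrading P) (hs : ∀ i, star (P i) = P i) {T₀ : R} (h : Reg P T₀)
    (hu : IsUnit T₀) :
    ∃ K > 0, ∃ δ > 0, ∀ T T' : R, ‖T - T₀‖ < δ → ‖T' - T₀‖ < δ →
      Reg P T ∧ ∀ k, ‖F6 P T k - F6 P T' k‖ ≤ K * ‖T - T'‖ ∧ ‖F6 P T k‖ ≤ K := by
  obtain ⟨K, hK, δ, hδ, hl⟩ := exists_lip_of_contDiffAt (contDiffAt_F6 hP hs h hu)
  obtain ⟨δ', hδ', hb⟩ := Metric.mem_nhds_iff.mp (reg_eventually h)
  refine ⟨K, hK, min δ δ', lt_min hδ hδ', fun T T' hT hT' => ⟨?_, fun k => ?_⟩⟩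
  · exact hb (by rw [Metric.mem_ball, dist_eq_norm]; exact hT.trans_le (min_le_right _ _))
  · obtain ⟨h1, h2⟩ := hl T T' (hT.trans_le (min_le_left _ _)) (hT'.trans_le (min_le_left _ _))
    exact ⟨(norm_le_pi_norm (F6 P T - F6 P T') k).trans h1, (norm_le_pi_norm (F6 P T) k).trans h2⟩

lemma exists_lip3 (hP : IsGrading P) (hs : ∀ i, star (P i) = P i) {T₀ : R} (h : Reg P T₀) :
    ∃ K > 0, ∃ δ > 0, ∀ T T' : R, ‖T - T₀‖ < δ → ‖T' - T₀‖ < δ →
      Reg P T ∧ ‖yL P T - yL P T'‖ ≤ K * ‖T - T'‖ ∧ ‖xU P T - xU P T'‖ ≤ K * ‖T - T'‖ ∧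
      ‖dD P T - dD P T'‖ ≤ K * ‖T - T'‖ := by
  have hc : ContDiffAt ℝ 1 (fun T : R => (yL P T, xU P T, dD P T)) T₀ :=
    (contDiffAt_yL h).prodMk ((contDiffAt_xU hs h).prodMk (contDiffAt_dD hP hs h))
  obtain ⟨K, hK, δ, hδ, hl⟩ := exists_lip_of_contDiffAt hc
  obtain ⟨δ', hδ', hb⟩ := Metric.mem_nhds_iff.mp (reg_eventually h)
  refine ⟨K, hK, min δ δ', lt_min hδ hδ', fun T T' hT hT' => ⟨?_, ?_⟩⟩
  · exact hb (by rw [Metric.mem_ball, dist_eq_norm]; exact hT.trans_le (min_le_right _ _))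
  · obtain ⟨h1, h2⟩ := hl T T' (hT.trans_le (min_le_left _ _)) (hT'.trans_le (min_le_left _ _))
    have h3 := norm_fst_le ((yL P T, xU P T, dD P T) - (yL P T', xU P T', dD P T'))
    have h4 := norm_snd_le ((yL P T, xU P T, dD P T) - (yL P T', xU P T', dD P T'))
    have h5 := norm_fst_le ((yL P T, xU P T, dD P T) - (yL P T', xU P T', dD P T')).2
    have h6 := norm_snd_le ((yL P T, xU P T, dD P T) - (yL P T', xU P T', dD P T')).2
    exact ⟨h3.trans h1, (h5.trans h4).trans h1, (h6.trans h4).trans h1⟩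

end Abstract

end H11

theorem exists_lipschitz {N : ℕ} {ι : Type} [Fintype ι] [LinearOrder ι] {P : ι → Op N}
    (hP : IsGrading P) (hs : ∀ i, star (P i) = P i) {T₀ : Op N} (h : Reg P T₀) :
    ∃ K > 0, ∃ δ > 0, ∀ T T' : Op N, ‖T - T₀‖ < δ → ‖T' - T₀‖ < δ →
      Reg P T ∧ ‖yL P T - yL P T'‖ ≤ K * ‖T - T'‖ ∧ ‖xU P T - xU P T'‖ ≤ K * ‖T - T'‖ ∧
      ‖dD P T - dD P T'‖ ≤ K * ‖T - T'‖ :=
  H11.exists_lip3 hP hs h

end Pool.Agent.Lib.MP_d9b062_al
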