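import Pool.Agent.Lib.MP_d9b062_al.AlgDefs

/-!
# A matrix whose one-parameter group lies in the Zariski closure of `exp 𝔤` belongs to `𝔤`

`𝔤` semisimple; three facts are hypotheses (closure under products, the closure normalises `𝔤`, and
no central one-parameter group lies in the closure).
-/

set_option autoImplicit false

namespace Pool.Agent.Lib.MP_d9b062_al.Stmt

open NormedSpace Matrix

attribute [local instance 100] LieRing.ofAssociativeRing

theorem mem_of_inZcl_of {N : ℕ} {𝔤 : LieSubalgebra ℝ (Matrix (Fin N) (Fin N) ℝ)}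
    [LieAlgebra.IsSemisimple ℝ 𝔤]
    (hmul : ∀ S T : Matrix (Fin N) (Fin N) ℝ, InZcl 𝔤 S → InZcl 𝔤 T → InZcl 𝔤 (S * T))
    (hbr : ∀ X : Matrix (Fin N) (Fin N) ℝ, (∀ t : ℝ, InZcl 𝔤 (exp (t • X))) →
      ∀ Y ∈ 𝔤, X * Y - Y * X ∈ 𝔤)
    (hcen : ∀ z : Matrix (Fin N) (Fin N) ℝ, (∀ t : ℝ, InZcl 𝔤 (exp (t • z))) →
      (∀ X ∈ 𝔤, z * X = X * z) → z = 0)
    {X : Matrix (Fin N) (Fin N) ℝ} (hX : ∀ t : ℝ, InZcl 𝔤 (exp (t • X))) : X ∈ 𝔤 := by
  have hb := hbr X hX
  -- the derivation `Y ↦ [X, Y]`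
  let D0 : 𝔤 →ₗ[ℝ] 𝔤 :=
    { toFun := fun Y => ⟨X * Y.1 - Y.1 * X, hb Y.1 Y.2⟩
      map_add' := by
        intro a b
        apply Subtype.ext
        change X * (a.1 + b.1) - (a.1 + b.1) * X = (X * a.1 - a.1 * X) + (X * b.1 - b.1 * X)
        rw [mul_add, add_mul]
        abel
      map_smul' := by
        intro c a
        apply Subtype.ext
        change X * (c • a.1) - (c • a.1) * X = c • (X * a.1 - a.1 * X)
        rw [mul_smul_comm, smul_mul_assoc, smul_sub] }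
  let Dd : LieDerivation ℝ 𝔤 𝔤 :=
    { toLinearMap := D0
      leibniz' := by
        intro a b
        apply Subtype.ext
        change X * (a.1 * b.1 - b.1 * a.1) - (a.1 * b.1 - b.1 * a.1) * X =
          (a.1 * (X * b.1 - b.1 * X) - (X * b.1 - b.1 * X) * a.1) -
            (b.1 * (X * a.1 - a.1 * X) - (X * a.1 - a.1 * X) * b.1)
        noncomm_ring }
  obtain ⟨Y0, hY0⟩ := LieDerivation.IsKilling.exists_eq_ad Dd
  have hcomm : ∀ Y ∈ 𝔤, X * Y - Y * X = Y0.1 * Y - Y * Y0.1 := by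
    intro Y hY
    have h1 : (LieDerivation.ad ℝ 𝔤 Y0) ⟨Y, hY⟩ = Dd ⟨Y, hY⟩ := by rw [hY0]
    rw [LieDerivation.ad_apply_apply] at h1
    have h2 := congrArg Subtype.val h1
    exact h2.symm
  have hz : ∀ Y ∈ 𝔤, (X - Y0.1) * Y = Y * (X - Y0.1) := by
    intro Y hY
    have h1 := hcomm Y hY
    rw [sub_mul, mul_sub]
    have h2 : X * Y = Y * X + (Y0.1 * Y - Y * Y0.1) := by rw [← h1]; abel
    rw [h2]
    abel
  have hXY : Commute X Y0.1 := by
    have h1 := hz Y0.1 Y0.2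
    rw [sub_mul, mul_sub] at h1
    exact sub_left_injective h1
  have h0 : X - Y0.1 = 0 := by
    apply hcen _ _ hz
    intro t
    have h1 : exp (t • (X - Y0.1)) = exp (t • X) * exp ((-t) • Y0.1) := by
      rw [← Matrix.exp_add_of_commute]
      · congr 1
        rw [smul_sub, neg_smul]
        abel
      · exact (hXY.smul_left t).smul_right (-t)
    rw [h1]
    apply hmul _ _ (hX t)
    intro p hp
    have h2 := hp [(-t) • Y0.1] (by
      intro Z hZ
      rw [List.mem_singleton] at hZ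
      rw [hZ]
      exact 𝔤.smul_mem _ Y0.2)
    simpa using h2
  rw [sub_eq_zero] at h0
  rw [h0]
  exact Y0.2

end Pool.Agent.Lib.MP_d9b062_al.Stmt
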